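import Pool.Agent.helper60.DA.SpecV

set_option autoImplicit false
set_option linter.unusedSimpArgs false

namespace Pool.Agent.helper60.DA

open Polynomial Finset Pool.Agent.helper60.DK

theorem HM_add {R : Type} [CommRing R] (d : ℕ) (f g : R[X]) :
    hm d (f + g) = hm d f + hm d g := by
  unfold hm
  rw [← Finset.sum_add_distrib]
  refine Finset.sum_congr rfl fun i _ => ?_
  rw [coeff_add, C_add, add_mul]

theorem HM_zero {R : Type} [CommRing R] (d : ℕ) : hm d (0 : R[X]) = 0 := by
  unfold hm
  refine Finset.sum_eq_zero fun i _ => ?_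
  rw [coeff_zero, C_0, zero_mul]

theorem HM_sum {R : Type} [CommRing R] {ι : Type} (d : ℕ) (s : Finset ι) (f : ι → R[X]) :
    hm d (∑ i ∈ s, f i) = ∑ i ∈ s, hm d (f i) := by
  classical
  induction s using Finset.induction_on with
  | empty => rw [Finset.sum_empty, Finset.sum_empty, HM_zero]
  | insert a s ha ih => rw [Finset.sum_insert ha, Finset.sum_insert ha, HM_add, ih]

theorem HM_smul {R : Type} [CommRing R] (d : ℕ) (c : R) (f : R[X]) :
    hm d (C c * f) = C c * hm d f := by
  unfold hm
  rw [Finset.mul_sum]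
  refine Finset.sum_congr rfl fun i _ => ?_
  rw [coeff_C_mul, C_mul, mul_assoc]

theorem HM_mono {R : Type} [CommRing R] (d i : ℕ) (hi : i ≤ d) (c : R) :
    hm d (C c * X ^ i) = C c * ((X ^ 2 - 1) ^ i * (4 - X ^ 2) ^ (d - i)) := by
  unfold hm
  rw [Finset.sum_eq_single i]
  · rw [coeff_C_mul_X_pow, if_pos rfl]
  · intro j _ hj
    rw [coeff_C_mul_X_pow, if_neg hj, C_0, zero_mul]
  · intro h
    exact absurd (Finset.mem_range.2 (Nat.lt_succ_of_le hi)) h

theorem HM_expand {R : Type} [CommRing R] (n : ℕ) (f : R[X]) (hf : f.natDegree ≤ n) :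
    f = ∑ i ∈ range (n + 1), C (f.coeff i) * X ^ i := by
  have h := f.as_sum_range' (n + 1) (Nat.lt_succ_of_le hf)
  simpa only [C_mul_X_pow_eq_monomial] using h

theorem HM_mul {R : Type} [CommRing R] (a b : ℕ) (f g : R[X]) (hf : f.natDegree ≤ a)
    (hg : g.natDegree ≤ b) : hm (a + b) (f * g) = hm a f * hm b g := by
  have h1 : f * g = ∑ i ∈ range (a + 1), ∑ j ∈ range (b + 1),
      C (f.coeff i * g.coeff j) * X ^ (i + j) := by
    conv_lhs => rw [HM_expand a f hf, HM_expand b g hg]
    rw [Finset.sum_mul_sum]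
    refine Finset.sum_congr rfl fun i _ => Finset.sum_congr rfl fun j _ => ?_
    rw [C_mul, pow_add]; ring
  rw [h1, HM_sum]
  unfold hm
  rw [Finset.sum_mul_sum]
  refine Finset.sum_congr rfl fun i hi => ?_
  have h2 := HM_sum (a + b) (range (b + 1)) (fun j => C (f.coeff i * g.coeff j) * X ^ (i + j))
  unfold hm at h2
  rw [h2]
  refine Finset.sum_congr rfl fun j hj => ?_
  have hi' := Nat.lt_succ_iff.1 (Finset.mem_range.1 hi)
  have hj' := Nat.lt_succ_iff.1 (Finset.mem_range.1 hj)
  have h3 := HM_mono (a + b) (i + j) (by omega) (f.coeff i * g.coeff j)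
  unfold hm at h3
  rw [h3, show a + b - (i + j) = (a - i) + (b - j) by omega, C_mul, pow_add, pow_add]
  ring

theorem HM_der {R : Type} [CommRing R] (d : ℕ) (f : R[X]) (hf : f.natDegree ≤ d + 1) :
    (4 - X ^ 2) * derivative (hm (d + 1) f)
    = 6 * X * hm d (derivative f) - 2 * ((d : R[X]) + 1) * X * hm (d + 1) f := by
  rw [HM_expand (d + 1) f hf, HM_sum, derivative_sum, derivative_sum, HM_sum, Finset.mul_sum,
    Finset.mul_sum, Finset.mul_sum, ← Finset.sum_sub_distrib]
  refine Finset.sum_congr rfl fun i hi => ?_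
  have hi' : i ≤ d + 1 := Nat.lt_succ_iff.1 (Finset.mem_range.1 hi)
  rw [HM_mono (d + 1) i hi']
  have h4 : derivative (4 : R[X]) = 0 := by
    have : (4 : R[X]) = C 4 := (map_ofNat C 4).symm
    rw [this, derivative_C]
  rcases Nat.eq_zero_or_pos i with rfl | hpos
  · rw [pow_zero, pow_zero, one_mul, mul_one, derivative_C, HM_zero, derivative_C_mul,
      derivative_pow, derivative_sub, h4, derivative_X_pow]
    simp only [Nat.sub_zero, Nat.add_sub_cancel]
    push_cast
    simp only [map_add, map_natCast, map_one, map_ofNat]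
    ring
  · obtain ⟨k, rfl⟩ : ∃ k, i = k + 1 := ⟨i - 1, by omega⟩
    have hk : k ≤ d := by omega
    obtain ⟨e, rfl⟩ : ∃ e, d = k + e := ⟨d - k, by omega⟩
    rw [derivative_C_mul_X_pow, Nat.add_sub_cancel, HM_mono (k + e) k (by omega),
      derivative_C_mul, derivative_mul, derivative_pow, derivative_pow, derivative_sub,
      derivative_sub, h4, derivative_X_pow, derivative_one,
      show k + e + 1 - (k + 1) = e by omega, show k + e - k = e by omega]
    rcases Nat.eq_zero_or_pos e with rfl | he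
    · simp only [map_mul, map_add, map_natCast, map_one, map_ofNat, Nat.add_sub_cancel]
      push_cast
      ring
    · obtain ⟨e, rfl⟩ : ∃ e', e = e' + 1 := ⟨e - 1, by omega⟩
      simp only [map_mul, map_add, map_natCast, map_one, map_ofNat, Nat.add_sub_cancel]
      push_cast
      ring

theorem HM : HM_stmt := by
  intro R _
  refine ⟨HM_mul, HM_add, HM_smul, ⟨?_, ?_, ?_⟩, HM_der⟩
  · have h := HM_mono 1 1 le_rfl (1 : R)
    simpa using h
  · have h := HM_mono 1 1 le_rfl (1 : R)
    have h' := HM_mono 1 0 (Nat.zero_le 1) (1 : R)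
    rw [C_1, one_mul, one_mul, pow_one, pow_one, Nat.sub_self, pow_zero, mul_one] at h
    rw [C_1, one_mul, one_mul, pow_zero, pow_zero, Nat.sub_zero, pow_one, one_mul] at h'
    rw [HM_add, h, h']
    ring
  · have h := HM_mono 1 1 le_rfl (4 : R)
    have h' := HM_mono 1 0 (Nat.zero_le 1) (1 : R)
    have h4 : (C (4 : R)) = (4 : R[X]) := map_ofNat C 4
    rw [h4, pow_one, pow_one, Nat.sub_self, pow_zero, mul_one] at h
    rw [C_1, one_mul, one_mul, pow_zero, pow_zero, Nat.sub_zero, pow_one, one_mul] at h'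
    rw [HM_add, h, h']
    ring

end Pool.Agent.helper60.DA
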